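import Pool.Agent.Helper58.CP.Stmts

/-! QR block D, row PL: planar exactness and two-colourings for rotation systems. -/

namespace QD18

noncomputable section

open CP Finset Classical

/-- the labelled planar map of a planar rotation system -/
def toLM {D : Type} [Fintype D] (m : QR.RMap D) (hm : m.Planar) [Fintype m.Vert]
    [Fintype m.Face] : LM D m.Vert m.Face where
  rot := m.rot
  opp := m.opp
  opp_opp := m.opp_opp
  opp_ne := m.opp_ne
  vt := m.tail
  fc := m.fc
  vt_rot d := Quotient.sound (s := Equiv.Perm.SameCycle.setoid m.rot)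
    ((Equiv.Perm.sameCycle_apply_left).2 (Equiv.Perm.SameCycle.refl m.rot d))
  fc_face d := Quotient.sound (s := Equiv.Perm.SameCycle.setoid m.face)
    ((Equiv.Perm.sameCycle_apply_left (f := m.face)).2 (Equiv.Perm.SameCycle.refl m.face d))
  vt_surj := Quotient.mk_surjective
  fc_surj := Quotient.mk_surjective
  ne := hm.1
  conn S hS h1 h2 := by
    obtain ⟨d, hd⟩ := hS
    ext d'
    simp only [Set.mem_univ, iff_true]
    have h := hm.2.1 d d'
    induction h with
    | refl => exact hd
    | tail _ hbc ih =>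
      rcases hbc with h | h
      · rw [h]; exact h1 _ ih
      · rw [h]; exact h2 _ ih
  euler := by
    have h := hm.2.2
    simp only [Nat.card_eq_fintype_card] at h
    exact h

lemma tail_eq_iff {D : Type} (m : QR.RMap D) (d d' : D) :
    m.tail d = m.tail d' ↔ m.rot.SameCycle d d' :=
  Quotient.eq (r := Equiv.Perm.SameCycle.setoid m.rot)

lemma fc_eq_iff {D : Type} (m : QR.RMap D) (d d' : D) :
    m.fc d = m.fc d' ↔ m.face.SameCycle d d' :=
  Quotient.eq (r := Equiv.Perm.SameCycle.setoid m.face)

theorem st_PL (h : ST_EXA) : QR.ST_PL := by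
  intro D _ m A _ f o hm hf hs
  have : Fintype m.Vert := Fintype.ofFinite _
  have : Fintype m.Face := Fintype.ofFinite _
  refine h D m.Vert m.Face (toLM m hm) A f o hf ?_
  intro φ hφ
  obtain ⟨d, rfl⟩ := (toLM m hm).fc_surj φ
  have hd : ¬ m.face.SameCycle o d := fun hc => hφ ((fc_eq_iff m d o).2 hc.symm)
  rw [← hs d hd]
  refine Finset.sum_congr ?_ fun _ _ => rfl
  ext x
  simp only [Finset.mem_filter, Finset.mem_univ, true_and]
  change m.fc x = m.fc d ↔ _
  rw [fc_eq_iff]
  exact Equiv.Perm.sameCycle_comm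

/-- two-colouring of the vertices of a planar map all of whose faces but one have even degree -/
theorem bip (h : ST_BIPL) {D : Type} [Fintype D] (m : QR.RMap D) (hm : m.Planar) (o : D)
    (hs : ∀ d, ¬ m.face.SameCycle o d → Even (m.fdeg d)) :
    ∃ col : m.Vert → Bool, ∀ d, col (m.tail (m.opp d)) ≠ col (m.tail d) := by
  have : Fintype m.Vert := Fintype.ofFinite _
  have : Fintype m.Face := Fintype.ofFinite _
  refine h D m.Vert m.Face (toLM m hm) o ?_
  intro φ hφ
  obtain ⟨d, rfl⟩ := (toLM m hm).fc_surj φ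
  have hd : ¬ m.face.SameCycle o d := fun hc => hφ ((fc_eq_iff m d o).2 hc.symm)
  have he := hs d hd
  have hc : m.fdeg d = (Finset.univ.filter (fun x => (toLM m hm).fc x = (toLM m hm).fc d)).card := by
    unfold QR.RMap.fdeg
    rw [Nat.card_eq_fintype_card, Fintype.card_subtype]
    congr 1
    ext x
    simp only [Finset.mem_filter, Finset.mem_univ, true_and]
    change _ ↔ m.fc x = m.fc d
    rw [fc_eq_iff]
    exact Equiv.Perm.sameCycle_comm
  rw [hc] at he
  convert he

/-- for quadrangulations with a boundary -/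
theorem bip_quad (h : ST_BIPL) {D : Type} [Fintype D] (m : QR.RMap D) (o : D) (n p : ℕ)
    (hm : m.IsQuad o n p) :
    ∃ col : m.Vert → Bool, ∀ d, col (m.tail (m.opp d)) ≠ col (m.tail d) :=
  bip h m hm.planar o fun d hd => by rw [hm.inner d hd]; exact ⟨2, rfl⟩

end

end QD18
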